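import Pool.Agent.helper73.SHL.Spec

/-! # SHL: row NRO -/

set_option autoImplicit false

namespace Pool.Agent.SHL

open Module

private theorem NRO_dim {E F : Type} [AddCommGroup E] [Module ℚ E] [FiniteDimensional ℚ E]
    [AddCommGroup F] [Module ℚ F] (W : Submodule ℚ E) (f : F →ₗ[ℚ] E)
    (hf : Function.Injective f) (h : ∀ y, f y ∈ W → y = 0) : finrank ℚ W + finrank ℚ F ≤ finrank ℚ E := by
  have h1 : Disjoint W (LinearMap.range f) := by
    rw [Submodule.disjoint_def]
    rintro x hx ⟨y, rfl⟩
    rw [h y hx, map_zero]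
  have h2 := Submodule.finrank_add_finrank_le_of_disjoint h1
  rwa [LinearMap.finrank_range_of_inj hf] at h2

private theorem NRO_rank {M L : Type} [AddCommGroup M] [Module ℚ M] [AddCommGroup L] [Module ℚ L]
    (φ : Module.Dual ℚ M) (v : L) (hφ : φ ≠ 0) (hv : v ≠ 0) :
    finrank ℚ (LinearMap.range (φ.smulRight v)) = 1 := by
  have h1 : LinearMap.range (φ.smulRight v) = Submodule.span ℚ {v} := by
    apply le_antisymm
    · rintro x ⟨y, rfl⟩
      rw [LinearMap.smulRight_apply]
      exact Submodule.smul_mem _ _ (Submodule.mem_span_singleton_self v)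
    · rw [Submodule.span_singleton_le_iff_mem]
      obtain ⟨y, hy⟩ : ∃ y, φ y ≠ 0 := by
        by_contra hcon
        push Not at hcon
        exact hφ (LinearMap.ext hcon)
      refine ⟨(φ y)⁻¹ • y, ?_⟩
      rw [LinearMap.smulRight_apply, map_smul, smul_eq_mul, inv_mul_cancel₀ hy, one_smul]
  rw [h1]
  exact finrank_span_singleton hv

theorem NRO : NRO_stmt := by
  intro M L _ _ _ _ _ _ _ _ W hW
  obtain ⟨v, hv⟩ := exists_ne (0 : L)
  obtain ⟨m, hm⟩ := exists_ne (0 : M)
  obtain ⟨φ, hφ⟩ : ∃ φ : Module.Dual ℚ M, φ ≠ 0 := by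
    by_contra hcon
    push Not at hcon
    refine hm ((Module.forall_dual_apply_eq_zero_iff ℚ m).1 fun φ => ?_)
    rw [hcon φ]
    rfl
  have hd : finrank ℚ (M →ₗ[ℚ] L) = finrank ℚ M * finrank ℚ L := Module.finrank_linearMap ℚ ℚ M L
  rw [← hd, ← Nat.add_max_add_left]
  refine max_le ?_ ?_
  · -- maps into the line of `v`
    let f : Module.Dual ℚ M →ₗ[ℚ] (M →ₗ[ℚ] L) :=
      { toFun := fun ψ => ψ.smulRight v
        map_add' := fun a b => by
          ext x
          simp [add_smul]
        map_smul' := fun r a => by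
          ext x
          simp [mul_smul] }
    have hf : ∀ ψ, f ψ = ψ.smulRight v := fun _ => rfl
    have hinj : Function.Injective f := by
      rw [injective_iff_map_eq_zero]
      intro ψ hψ
      ext x
      have h1 : (f ψ) x = 0 := by rw [hψ]; rfl
      rw [hf, LinearMap.smulRight_apply, smul_eq_zero] at h1
      exact h1.resolve_right hv
    have h2 := NRO_dim W f hinj fun ψ hψ => by
      by_contra hne
      exact hW _ hψ (by rw [hf]; exact NRO_rank ψ v hne hv)
    rwa [Subspace.dual_finrank_eq] at h2
  · -- maps with the kernel of `φ`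
    let f : L →ₗ[ℚ] (M →ₗ[ℚ] L) :=
      { toFun := fun w => φ.smulRight w
        map_add' := fun a b => by
          ext x
          simp
        map_smul' := fun r a => by
          ext x
          exact smul_comm _ _ _ }
    have hf : ∀ w, f w = φ.smulRight w := fun _ => rfl
    obtain ⟨y, hy⟩ : ∃ y, φ y ≠ 0 := by
      by_contra hcon
      push Not at hcon
      exact hφ (LinearMap.ext hcon)
    have hinj : Function.Injective f := by
      rw [injective_iff_map_eq_zero]
      intro w hw
      have h1 : (f w) y = 0 := by rw [hw]; rfl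
      rw [hf, LinearMap.smulRight_apply, smul_eq_zero] at h1
      exact h1.resolve_left hy
    exact NRO_dim W f hinj fun w hw => by
      by_contra hne
      exact hW _ hw (by rw [hf]; exact NRO_rank φ w hφ hne)

end Pool.Agent.SHL
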